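import Pool.Agent.Helper85.BHW.Final

set_option autoImplicit false
open scoped Pointwise
open MeasureTheory Module

namespace Pool.Agent.Helper85.BHW

theorem prod_filter_eq {d k : ℕ} (hk : k ≤ d) (p : Fin d → Prop) [DecidablePred p]
    (hp : ∀ i : Fin d, (i : ℕ) < k ↔ p i) (f : Fin d → ℝ) :
    ∏ i ∈ Finset.univ.filter p, f i = ∏ j : Fin k, f (Fin.castLE hk j) := by
  have h : Finset.univ.filter p = Finset.univ.map (Fin.castLEEmb hk) := by
    ext i
    rw [Finset.mem_filter, Finset.mem_map]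
    constructor
    · rintro ⟨-, hi⟩
      refine ⟨⟨i, (hp i).2 hi⟩, Finset.mem_univ _, ?_⟩
      ext
      simp
    · rintro ⟨j, -, rfl⟩
      refine ⟨Finset.mem_univ _, (hp _).1 ?_⟩
      simp
  rw [h, Finset.prod_map]
  rfl

theorem main_bound {d : ℕ} (b : Basis (Fin d) ℝ (E d)) (K : Set (E d)) (hc : Convex ℝ K)
    (hcomp : IsCompact K) (hint : (interior K).Nonempty) (hsymm : ∀ x ∈ K, -x ∈ K)
    (R : ℝ) (hR : 0 < R) :
    ((K ∩ (Lat b : Set (E d))).ncard : ℝ) ≤
      ∏ i ∈ Finset.univ.filter (fun i => lam b K i ≤ 1),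
        max (1 + R) ((1 + 1 / R) * (2 / lam b K i)) := by
  classical
  have hpos := lam_pos b K hc hcomp hint hsymm
  have hmonoL := lam_mono b K hc hint hsymm
  obtain ⟨k, hk, hcut⟩ := exists_cut (lam b K) hmonoL
  rw [prod_filter_eq hk _ hcut]
  set δ : ℝ := 1 / R with hδdef
  have hδ : 0 < δ := by positivity
  set C : ℝ := ((K ∩ (Lat b : Set (E d))).ncard : ℝ) with hC
  have hC0 : 0 ≤ C := Nat.cast_nonneg _
  set P : ℝ := ∏ j : Fin k, min δ (lam b K (Fin.castLE hk j) / 2) with hP
  have hPpos : 0 < P := by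
    apply Finset.prod_pos
    intro j _
    have := hpos (Fin.castLE hk j)
    exact lt_min hδ (by positivity)
  -- a threshold for theta
  obtain ⟨θ0, hθ0pos, hθ0lt, hθ0⟩ : ∃ θ0 : ℝ, 0 < θ0 ∧ θ0 < 1 ∧
      ∀ i : Fin d, k ≤ (i : ℕ) → 1 ≤ θ0 * lam b K i := by
    by_cases hkd : k < d
    · have h1 : 1 < lam b K ⟨k, hkd⟩ := by
        by_contra h
        push Not at h
        exact absurd ((hcut ⟨k, hkd⟩).2 h) (lt_irrefl _)
      refine ⟨1 / lam b K ⟨k, hkd⟩, by positivity, ?_, ?_⟩
      · rw [div_lt_one (by linarith)]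
        exact h1
      · intro i hi
        have h2 : lam b K ⟨k, hkd⟩ ≤ lam b K i := hmonoL hi
        rw [one_div, ← div_eq_inv_mul, le_div_iff₀ (by linarith)]
        linarith
    · refine ⟨1 / 2, by norm_num, by norm_num, ?_⟩
      intro i hi
      have := i.isLt
      omega
  have hstep : ∀ θ : ℝ, θ0 < θ → θ < 1 → C * P * θ ^ k ≤ (1 + δ) ^ k := by
    intro θ h1 h2
    have hθ : 0 < θ := hθ0pos.trans h1
    have hb := theta_bound b K hc hcomp hint hsymm k hk θ hθ h2 (by
      intro i hi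
      refine (hθ0 i hi).trans ?_
      exact mul_le_mul_of_nonneg_right h1.le (hpos i).le) δ hδ
    refine le_trans ?_ hb
    rw [mul_assoc]
    apply mul_le_mul_of_nonneg_left _ hC0
    have : P * θ ^ k = ∏ j : Fin k, (min δ (lam b K (Fin.castLE hk j) / 2) * θ) := by
      rw [Finset.prod_mul_distrib, Finset.prod_const, Finset.card_univ, Fintype.card_fin]
    rw [this]
    apply Finset.prod_le_prod
    · intro j _
      have := hpos (Fin.castLE hk j)
      exact mul_nonneg (le_min hδ.le (by positivity)) hθ.le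
    · intro j _
      apply le_min
      · calc min δ (lam b K (Fin.castLE hk j) / 2) * θ ≤ δ * θ := by
              gcongr
              exact min_le_left _ _
          _ ≤ δ * 1 := by gcongr
          _ = δ := mul_one _
      · calc min δ (lam b K (Fin.castLE hk j) / 2) * θ
            ≤ (lam b K (Fin.castLE hk j) / 2) * θ := by
              gcongr
              exact min_le_right _ _
          _ = θ * lam b K (Fin.castLE hk j) / 2 := by ring
  have hlim : C * P ≤ (1 + δ) ^ k := by
    have htend : Filter.Tendsto (fun θ : ℝ => C * P * θ ^ k) (nhdsWithin 1 (Set.Iio 1))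
        (nhds (C * P * 1 ^ k)) := by
      apply Filter.Tendsto.mono_left _ nhdsWithin_le_nhds
      apply Continuous.tendsto
      fun_prop
    rw [one_pow, mul_one] at htend
    apply le_of_tendsto htend
    filter_upwards [Ioo_mem_nhdsLT hθ0lt] with θ hθ
    exact hstep θ hθ.1 hθ.2
  have hCle : C ≤ (1 + δ) ^ k / P := by
    rw [le_div_iff₀ hPpos]
    exact hlim
  refine hCle.trans (le_of_eq ?_)
  have : (1 + δ) ^ k = ∏ _j : Fin k, (1 + δ) := by
    rw [Finset.prod_const, Finset.card_univ, Fintype.card_fin]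
  rw [this, hP, ← Finset.prod_div_distrib]
  apply Finset.prod_congr rfl
  intro j _
  have hl := hpos (Fin.castLE hk j)
  have e1 : (1 + δ) / δ = 1 + R := by
    rw [hδdef]
    field_simp
    ring
  have e2 : (1 + δ) / (lam b K (Fin.castLE hk j) / 2) = (1 + 1 / R) * (2 / lam b K (Fin.castLE hk j)) := by
    rw [hδdef]
    field_simp
  rcases le_total δ (lam b K (Fin.castLE hk j) / 2) with h | h
  · rw [min_eq_left h, e1, eq_comm, max_eq_left]
    rw [← e1, ← e2]
    exact div_le_div_of_nonneg_left (by positivity) hδ h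
  · rw [min_eq_right h, e2, eq_comm, max_eq_right]
    rw [← e1, ← e2]
    exact div_le_div_of_nonneg_left (by positivity) (by positivity) h

theorem floor_facts (x : ℝ) : x < (⌊x + 1⌋ : ℝ) := by
  have := Int.lt_floor_add_one (x + 1)
  linarith

theorem bound_of_R {d : ℕ} (b : Basis (Fin d) ℝ (E d)) (K : Set (E d)) (hc : Convex ℝ K)
    (hcomp : IsCompact K) (hint : (interior K).Nonempty) (hsymm : ∀ x ∈ K, -x ∈ K)
    (R : ℝ) (hR : 0 < R)
    (hq : ∀ i, lam b K i ≤ 1 → R ≤ (⌊2 / lam b K i + 1⌋ : ℝ)) :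
    ((K ∩ (Lat b : Set (E d))).ncard : ℝ) ≤
      (1 + 1 / R) ^ d * ∏ i, (⌊2 / lam b K i + 1⌋ : ℝ) := by
  classical
  have hpos := lam_pos b K hc hcomp hint hsymm
  have h1 := main_bound b K hc hcomp hint hsymm R hR
  have hfl1 : ∀ i, (1 : ℝ) ≤ (⌊2 / lam b K i + 1⌋ : ℝ) := by
    intro i
    have h2 := hpos i
    have : (1 : ℤ) ≤ ⌊2 / lam b K i + 1⌋ := by
      rw [Int.le_floor]
      push_cast
      have : 0 < 2 / lam b K i := by positivity
      linarith
    exact_mod_cast this
  have hcoef : (1 : ℝ) ≤ 1 + 1 / R := by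
    have : 0 < 1 / R := by positivity
    linarith
  refine h1.trans ?_
  have h3 : (1 + 1 / R) ^ d * ∏ i, (⌊2 / lam b K i + 1⌋ : ℝ)
      = ∏ i : Fin d, ((1 + 1 / R) * (⌊2 / lam b K i + 1⌋ : ℝ)) := by
    rw [Finset.prod_mul_distrib, Finset.prod_const, Finset.card_univ, Fintype.card_fin]
  rw [h3]
  calc ∏ i ∈ Finset.univ.filter (fun i => lam b K i ≤ 1),
        max (1 + R) ((1 + 1 / R) * (2 / lam b K i))
      ≤ ∏ i ∈ Finset.univ.filter (fun i => lam b K i ≤ 1),
        ((1 + 1 / R) * (⌊2 / lam b K i + 1⌋ : ℝ)) := by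
        apply Finset.prod_le_prod
        · intro i _
          exact le_max_of_le_left (by positivity)
        · intro i hi
          have hi1 := (Finset.mem_filter.1 hi).2
          apply max_le
          · calc 1 + R = (1 + 1 / R) * R := by field_simp; ring
              _ ≤ (1 + 1 / R) * (⌊2 / lam b K i + 1⌋ : ℝ) := by
                  gcongr
                  exact hq i hi1
          · gcongr
            exact (floor_facts _).le
    _ ≤ ∏ i : Fin d, ((1 + 1 / R) * (⌊2 / lam b K i + 1⌋ : ℝ)) := by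
        have hone : ∀ i : Fin d, (1 : ℝ) ≤ (1 + 1 / R) * (⌊2 / lam b K i + 1⌋ : ℝ) := fun i =>
          one_le_mul_of_one_le_of_one_le hcoef (hfl1 i)
        rw [← Finset.prod_filter_mul_prod_filter_not Finset.univ (fun i => lam b K i ≤ 1)
          (fun i => (1 + 1 / R) * (⌊2 / lam b K i + 1⌋ : ℝ))]
        apply le_mul_of_one_le_right
        · apply Finset.prod_nonneg
          intro i _
          linarith [hone i]
        · have : ∏ _i ∈ Finset.univ.filter (fun i => ¬ lam b K i ≤ 1), (1 : ℝ) ≤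
              ∏ i ∈ Finset.univ.filter (fun i => ¬ lam b K i ≤ 1),
                ((1 + 1 / R) * (⌊2 / lam b K i + 1⌋ : ℝ)) :=
            Finset.prod_le_prod (fun _ _ => zero_le_one) (fun i _ => hone i)
          simpa using this

theorem floor_ge_three (l : ℝ) (h0 : 0 < l) (h1 : l ≤ 1) : (3 : ℝ) ≤ (⌊2 / l + 1⌋ : ℝ) := by
  have : (3 : ℤ) ≤ ⌊2 / l + 1⌋ := by
    rw [Int.le_floor]
    push_cast
    have : 2 ≤ 2 / l := by
      rw [le_div_iff₀ h0]
      linarith
    linarith
  exact_mod_cast this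

end Pool.Agent.Helper85.BHW
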