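import Mathlib

/-!
Lattice points and successive minima (MP_98df5b_co): shared definitions.
-/

set_option autoImplicit false
open scoped Pointwise
open MeasureTheory Module

namespace Pool.Agent.Helper85.BHW

/-- an integer vector viewed as a real vector -/
def cz {n : ℕ} (z : Fin n → ℤ) : Fin n → ℝ := fun j => (z j : ℝ)

/-- periodisation of `A` in the first `i` coordinates: the points whose first `i` coordinates lie
in `[0,1)` and which are moved into `A` by an integer vector supported on the first `i`
coordinates -/
def per {n : ℕ} (i : ℕ) (A : Set (Fin n → ℝ)) : Set (Fin n → ℝ) :=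
  {x | (∀ j : Fin n, (j : ℕ) < i → x j ∈ Set.Ico (0:ℝ) 1) ∧
    ∃ z : Fin n → ℤ, (∀ j : Fin n, i ≤ (j : ℕ) → z j = 0) ∧ x + cz z ∈ A}

end Pool.Agent.Helper85.BHW
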