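import Pool.Agent.Helper85.BHW.Glue

set_option autoImplicit false
open scoped Pointwise
open MeasureTheory Module

namespace Pool.Agent.Helper85.BHW

theorem per_zero {n : ℕ} (A : Set (Fin n → ℝ)) : per 0 A = A := by
  ext x
  simp only [per, Set.mem_ofPred_eq]
  constructor
  · rintro ⟨-, z, hz, hx⟩
    have : cz z = 0 := by
      funext j
      simp [cz, hz j (Nat.zero_le _)]
    rwa [this, add_zero] at hx
  · intro hx
    refine ⟨fun j hj => absurd hj (Nat.not_lt_zero _), 0, fun _ _ => rfl, ?_⟩
    have : cz (0 : Fin n → ℤ) = 0 := by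
      funext j
      simp [cz]
    rwa [this, add_zero]

theorem per_mono {n : ℕ} (i : ℕ) {A B : Set (Fin n → ℝ)} (h : A ⊆ B) : per i A ⊆ per i B := by
  rintro x ⟨h1, z, hz, hx⟩
  exact ⟨h1, z, hz, h hx⟩

theorem smul_subset_smul_of_le {n : ℕ} {K : Set (Fin n → ℝ)} (hc : Convex ℝ K) (h0 : (0 : Fin n → ℝ) ∈ K)
    {s t : ℝ} (hs : 0 ≤ s) (hst : s ≤ t) : s • K ⊆ t • K := by
  rintro x ⟨k, hk, rfl⟩
  rcases eq_or_lt_of_le (hs.trans hst) with ht | ht
  · have hs0 : s = 0 := le_antisymm (by rw [← ht] at hst; exact hst) hs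
    subst hs0
    refine ⟨0, h0, ?_⟩
    simp
  · refine ⟨(s / t) • k, ?_, ?_⟩
    · have := hc hk h0 (a := s / t) (b := 1 - s / t) (by positivity)
        (by rw [sub_nonneg, div_le_one ht]; exact hst) (by ring)
      simpa using this
    · simp only [smul_smul]
      rw [mul_div_cancel₀ _ ht.ne']

/-- lower bound for the volume of the projection of `δ K` to the torus -/
theorem vol_lower {n : ℕ} (K : Set (Fin n → ℝ)) (hc : Convex ℝ K) (hcl : IsClosed K)
    (hsymm : ∀ x ∈ K, -x ∈ K) (h0 : (0 : Fin n → ℝ) ∈ K)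
    (a : Fin n → ℝ) (ha : ∀ i, 0 < a i) (hmono : Monotone a)
    (hH : ∀ i, ∀ z : Fin n → ℤ, cz z ∈ a i • K → ∀ j, i ≤ j → z j = 0) (δ : ℝ) (hδ : 0 < δ) :
    ENNReal.ofReal (∏ j, min δ (a j / 2)) * volume K ≤ volume (per n (δ • K)) := by
  classical
  set D : ℕ → ℝ := fun i => if h : i < n then min δ (a ⟨i, h⟩ / 2) else δ with hD
  have hDpos : ∀ i, 0 < D i := by
    intro i
    simp only [hD]
    split_ifs with h
    · exact lt_min hδ (by have := ha ⟨i, h⟩; positivity)
    · exact hδ
  have hDle : ∀ i, D i ≤ δ := by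
    intro i
    simp only [hD]
    split_ifs with h
    · exact min_le_left _ _
    · exact le_rfl
  have hDmono : ∀ i, D i ≤ D (i + 1) := by
    intro i
    by_cases h1 : i + 1 < n
    · have h2 : i < n := by omega
      simp only [hD, h1, h2, dif_pos]
      apply min_le_min_left
      have : a ⟨i, h2⟩ ≤ a ⟨i + 1, h1⟩ := hmono (by simp [Fin.le_def])
      linarith
    · have : D (i + 1) = δ := by simp [hD, h1]
      rw [this]
      exact hDle i
  have key : ∀ i : ℕ, i ≤ n →
      ENNReal.ofReal ((∏ j ∈ Finset.range i, D j) * (D i) ^ (n - i)) * volume K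
        ≤ volume (per i ((D i) • K)) := by
    intro i
    induction i with
    | zero =>
      intro _
      rw [per_zero, Measure.addHaar_smul]
      simp only [Finset.range_zero, Finset.prod_empty, one_mul, Nat.sub_zero]
      rw [abs_of_nonneg (pow_nonneg (hDpos 0).le _)]
      simp
    | succ i ih =>
      intro hi
      have hin : i < n := hi
      have ih' := ih hin.le
      have h1 := dilate (i + 1) hi K hc hcl (D (i + 1)) (D i) (hDpos i) (hDmono i)
      have hmeas : MeasurableSet ((D i) • K) := by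
        have : IsClosed ((D i) • K) := hcl.smul₀ (D i) 
        exact this.measurableSet
      have h2 := unfold_step (⟨i, hin⟩ : Fin n) ((D i) • K) hmeas (by
        rintro x ⟨k, hk, rfl⟩ y ⟨l, hl, rfl⟩ z hz
        have hmem : cz z ∈ a ⟨i, hin⟩ • K := by
          have h3 : cz z ∈ (2 * D i) • K := by
            rw [← hz]
            refine ⟨(1 / 2 : ℝ) • k + (1 / 2 : ℝ) • (-l), hc hk (hsymm l hl) (by norm_num) (by norm_num)
              (by norm_num), ?_⟩
            simp only [smul_add, smul_smul, smul_neg]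
            have : 2 * D i * (1 / 2) = D i := by ring
            rw [this, sub_eq_add_neg]
          refine smul_subset_smul_of_le hc h0 (by have := hDpos i; positivity) ?_ h3
          have : D i ≤ a ⟨i, hin⟩ / 2 := by
            simp only [hD, hin, dif_pos]
            exact min_le_right _ _
          linarith
        exact hH ⟨i, hin⟩ z hmem ⟨i, hin⟩ le_rfl)
      have hDi := (hDpos i).ne'
      calc ENNReal.ofReal ((∏ j ∈ Finset.range (i + 1), D j) * D (i + 1) ^ (n - (i + 1))) * volume K
          = ENNReal.ofReal ((D (i + 1) / D i) ^ (n - (i + 1))) *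
            (ENNReal.ofReal ((∏ j ∈ Finset.range i, D j) * D i ^ (n - i)) * volume K) := by
              rw [← mul_assoc, ← ENNReal.ofReal_mul (by
                have := hDpos i; have := hDpos (i+1); positivity)]
              congr 2
              rw [Finset.prod_range_succ, div_pow]
              have hni : n - i = (n - (i + 1)) + 1 := by omega
              rw [hni, pow_succ]
              field_simp
        _ ≤ ENNReal.ofReal ((D (i + 1) / D i) ^ (n - (i + 1))) * volume (per i ((D i) • K)) := by
              gcongr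
        _ ≤ ENNReal.ofReal ((D (i + 1) / D i) ^ (n - (i + 1))) * volume (per (i + 1) ((D i) • K)) := by
              gcongr
        _ ≤ volume (per (i + 1) ((D (i + 1)) • K)) := h1
  have hfin := key n le_rfl
  have hDn : D n = δ := by simp [hD]
  rw [hDn, Nat.sub_self, pow_zero, mul_one] at hfin
  have hprod : ∏ j ∈ Finset.range n, D j = ∏ j : Fin n, min δ (a j / 2) := by
    rw [← Fin.prod_univ_eq_prod_range]
    apply Finset.prod_congr rfl
    intro j _
    simp [hD]
  rwa [hprod] at hfin

/-- the main inequality in coordinates -/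
theorem coord_main {n : ℕ} (K : Set (Fin n → ℝ)) (hc : Convex ℝ K) (hcomp : IsCompact K)
    (hsymm : ∀ x ∈ K, -x ∈ K) (hint : (interior K).Nonempty)
    (a : Fin n → ℝ) (ha : ∀ i, 0 < a i) (hmono : Monotone a)
    (hH : ∀ i, ∀ z : Fin n → ℤ, cz z ∈ a i • K → ∀ j, i ≤ j → z j = 0) (δ : ℝ) (hδ : 0 < δ)
    (U : Finset (Fin n → ℤ)) (hU : ∀ u ∈ U, cz u ∈ K) :
    (U.card : ℝ) * ∏ j, min δ (a j / 2) ≤ (1 + δ) ^ n := by
  have hcl := hcomp.isClosed
  have h0 : (0 : Fin n → ℝ) ∈ K := by
    obtain ⟨x, hx⟩ := hint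
    have hx' := interior_subset hx
    have := hc hx' (hsymm x hx') (a := 1/2) (b := 1/2) (by norm_num) (by norm_num) (by norm_num)
    simpa using this
  have hpos : 0 < volume K :=
    lt_of_lt_of_le (isOpen_interior.measure_pos volume hint) (measure_mono interior_subset)
  have hfin : volume K < ⊤ := hcomp.measure_lt_top
  have h1 := packing K hc hcl δ hδ U hU
  have h2 := vol_lower K hc hcl hsymm h0 a ha hmono hH δ hδ
  have h3 : (U.card : ENNReal) * (ENNReal.ofReal (∏ j, min δ (a j / 2)) * volume K) ≤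
      volume ((1 + δ) • K) := (mul_le_mul_right h2 _).trans h1
  rw [Measure.addHaar_smul, abs_of_nonneg (by positivity)] at h3
  rw [← mul_assoc] at h3
  have h4 := (ENNReal.mul_le_mul_iff_left hpos.ne' hfin.ne).1 h3
  have hprodnn : 0 ≤ ∏ j, min δ (a j / 2) := by
    apply Finset.prod_nonneg
    intro j _
    have := ha j
    exact le_min hδ.le (by positivity)
  have h5 : (U.card : ENNReal) = ENNReal.ofReal (U.card : ℝ) := by
    rw [ENNReal.ofReal_natCast]
  rw [h5, ← ENNReal.ofReal_mul (by positivity), ENNReal.ofReal_le_ofReal_iff (by positivity)] at h4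
  simpa using h4

end Pool.Agent.Helper85.BHW
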