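import Pool.Agent.Helper85.BHW.Coord

set_option autoImplicit false
open scoped Pointwise
open MeasureTheory Module

namespace Pool.Agent.Helper85.BHW

abbrev E (d : ℕ) := EuclideanSpace ℝ (Fin d)

/-- the lattice spanned by a basis -/
abbrev Lat {d : ℕ} (b : Basis (Fin d) ℝ (E d)) : Submodule ℤ (E d) :=
  Submodule.span ℤ (Set.range b)

/-- the set of dilation factors `t > 0` such that `t K` contains `i+1` independent lattice points -/
def lamSet {d : ℕ} (b : Basis (Fin d) ℝ (E d)) (K : Set (E d)) (i : Fin d) : Set ℝ :=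
  {t : ℝ | 0 < t ∧ i.val + 1 ≤ finrank ℝ (Submodule.span ℝ ((t • K) ∩ (Lat b : Set (E d))))}

/-- the successive minima -/
noncomputable def lam {d : ℕ} (b : Basis (Fin d) ℝ (E d)) (K : Set (E d)) (i : Fin d) : ℝ :=
  sInf (lamSet b K i)

theorem lamSet_bddBelow {d : ℕ} (b : Basis (Fin d) ℝ (E d)) (K : Set (E d)) (i : Fin d) :
    BddBelow (lamSet b K i) := ⟨0, fun _ ht => ht.1.le⟩

theorem finrank_le_of_lt_lam {d : ℕ} (b : Basis (Fin d) ℝ (E d)) (K : Set (E d)) (i : Fin d)
    (t : ℝ) (ht : 0 < t) (hlt : t < lam b K i) :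
    finrank ℝ (Submodule.span ℝ ((t • K) ∩ (Lat b : Set (E d)))) ≤ i.val := by
  by_contra h
  push Not at h
  have : t ∈ lamSet b K i := ⟨ht, h⟩
  exact absurd (csInf_le (lamSet_bddBelow b K i) this) (not_le.2 hlt)

theorem zero_mem_interior {d : ℕ} (K : Set (E d)) (hc : Convex ℝ K) (hint : (interior K).Nonempty)
    (hsymm : ∀ x ∈ K, -x ∈ K) : (0 : E d) ∈ interior K := by
  obtain ⟨x, hx⟩ := hint
  have hx' : -x ∈ interior K := by
    have hneg : (Homeomorph.neg (E d)) ⁻¹' K = K := by
      ext y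
      constructor
      · intro hy
        have := hsymm _ hy
        simpa using this
      · intro hy
        exact hsymm _ hy
    have h1 := (Homeomorph.neg (E d)).preimage_interior K
    rw [hneg] at h1
    rw [← h1]
    show -(-x) ∈ interior K
    rwa [neg_neg]
  have := hc.interior hx hx' (a := 1/2) (b := 1/2) (by norm_num) (by norm_num) (by norm_num)
  simpa using this

theorem lamSet_nonempty {d : ℕ} (b : Basis (Fin d) ℝ (E d)) (K : Set (E d)) (hc : Convex ℝ K)
    (hint : (interior K).Nonempty) (hsymm : ∀ x ∈ K, -x ∈ K) (i : Fin d) :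
    (lamSet b K i).Nonempty := by
  have h0 := zero_mem_interior K hc hint hsymm
  obtain ⟨r, hr, hball⟩ := Metric.isOpen_iff.1 isOpen_interior 0 h0
  obtain ⟨M, hM⟩ : ∃ M : ℝ, ∀ j, ‖b j‖ ≤ M := by
    obtain ⟨M, hM⟩ := (Set.finite_range (fun j => ‖b j‖)).bddAbove
    exact ⟨M, fun j => hM ⟨j, rfl⟩⟩
  have hM0 : 0 ≤ M := (norm_nonneg _).trans (hM i)
  refine ⟨(M + 1) / r, by positivity, ?_⟩
  have hsub : Set.range b ⊆ (((M + 1) / r) • K) ∩ (Lat b : Set (E d)) := by
    rintro _ ⟨j, rfl⟩
    refine ⟨?_, Submodule.subset_span ⟨j, rfl⟩⟩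
    have hne : (M + 1) / r ≠ 0 := by positivity
    rw [Set.mem_smul_set_iff_inv_smul_mem₀ hne]
    apply interior_subset
    apply hball
    rw [mem_ball_zero_iff, norm_smul, norm_inv, Real.norm_of_nonneg (by positivity), inv_div]
    calc r / (M + 1) * ‖b j‖ ≤ r / (M + 1) * M := by
          gcongr
          exact hM j
      _ < r / (M + 1) * (M + 1) := by
          apply mul_lt_mul_of_pos_left (by linarith) (by positivity)
      _ = r := by field_simp
  have htop : Submodule.span ℝ ((((M + 1) / r) • K) ∩ (Lat b : Set (E d))) = ⊤ := by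
    rw [eq_top_iff, ← b.span_eq]
    exact Submodule.span_mono hsub
  rw [htop, finrank_top, finrank_euclideanSpace, Fintype.card_fin]
  exact i.isLt

theorem lam_mono {d : ℕ} (b : Basis (Fin d) ℝ (E d)) (K : Set (E d)) (hc : Convex ℝ K)
    (hint : (interior K).Nonempty) (hsymm : ∀ x ∈ K, -x ∈ K) : Monotone (lam b K) := by
  intro i j hij
  apply csInf_le_csInf (lamSet_bddBelow b K i) (lamSet_nonempty b K hc hint hsymm j)
  rintro t ⟨ht, h⟩
  refine ⟨ht, le_trans ?_ h⟩
  have : i.val ≤ j.val := hij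
  omega

theorem lam_pos {d : ℕ} (b : Basis (Fin d) ℝ (E d)) (K : Set (E d)) (hc : Convex ℝ K)
    (hcomp : IsCompact K)
    (hint : (interior K).Nonempty) (hsymm : ∀ x ∈ K, -x ∈ K) (i : Fin d) : 0 < lam b K i := by
  -- there is a radius without nonzero lattice points
  obtain ⟨C, hC⟩ := hcomp.isBounded.exists_norm_le
  have hdisc : DiscreteTopology (Lat b) := inferInstance
  obtain ⟨ε, hε, hball⟩ : ∃ ε > 0, ∀ x ∈ Lat b, ‖x‖ < ε → x = 0 := by
    have h1 : ({0} : Set (Lat b)) ∈ nhds (0 : Lat b) := by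
      rw [nhds_discrete]
      exact Filter.mem_pure.2 rfl
    obtain ⟨ε, hε, h2⟩ := Metric.mem_nhds_iff.1 h1
    refine ⟨ε, hε, fun x hx hn => ?_⟩
    have : (⟨x, hx⟩ : Lat b) ∈ Metric.ball (0 : Lat b) ε := by
      rw [mem_ball_zero_iff]
      exact hn
    have h3 := h2 this
    exact congrArg Subtype.val h3
  have hlow : ∀ t ∈ lamSet b K i, ε / (|C| + 1) ≤ t := by
    rintro t ⟨ht, h⟩
    by_contra hlt
    push Not at hlt
    have hzero : (t • K) ∩ (Lat b : Set (E d)) ⊆ {0} := by
      rintro x ⟨⟨k, hk, rfl⟩, hx⟩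
      apply hball _ hx
      show ‖t • k‖ < ε
      rw [norm_smul, Real.norm_of_nonneg ht.le]
      have h1 : ‖k‖ ≤ |C| := (hC k hk).trans (le_abs_self C)
      calc t * ‖k‖ ≤ t * |C| := by gcongr
        _ ≤ t * (|C| + 1) := by gcongr; linarith
        _ < ε / (|C| + 1) * (|C| + 1) := by
            apply mul_lt_mul_of_pos_right hlt (by positivity)
        _ = ε := by field_simp
    have : finrank ℝ (Submodule.span ℝ ((t • K) ∩ (Lat b : Set (E d)))) = 0 := by
      have h4 : Submodule.span ℝ ((t • K) ∩ (Lat b : Set (E d))) = ⊥ := by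
        rw [eq_bot_iff, ← Submodule.span_singleton_eq_bot.2 (rfl : (0 : E d) = 0)]
        exact Submodule.span_mono hzero
      rw [h4, finrank_bot]
    omega
  have := le_csInf (lamSet_nonempty b K hc hint hsymm i) hlow
  exact lt_of_lt_of_le (by positivity) this


theorem smul_subset_smul_of_le' {d : ℕ} {K : Set (E d)} (hc : Convex ℝ K) (h0 : (0 : E d) ∈ K)
    {s t : ℝ} (hs : 0 < s) (hst : s ≤ t) : s • K ⊆ t • K := by
  rintro x ⟨k, hk, rfl⟩
  have ht : 0 < t := lt_of_lt_of_le hs hst
  refine ⟨(s / t) • k, ?_, ?_⟩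
  · have := hc hk h0 (a := s / t) (b := 1 - s / t) (by positivity)
      (by rw [sub_nonneg, div_le_one ht]; exact hst) (by ring)
    simpa using this
  · simp only [smul_smul]
    rw [mul_div_cancel₀ _ ht.ne']

theorem finrank_span_le {d : ℕ} (b : Basis (Fin d) ℝ (E d)) (A : Set (E d)) (m : ℕ)
    (h : finrank ℝ (Submodule.span ℝ (A ∩ (Lat b : Set (E d)))) ≤ m) :
    finrank ℤ (Submodule.span ℤ {x : Lat b | (x : E d) ∈ A}) ≤ m := by
  have himg : (Submodule.span ℤ {x : Lat b | (x : E d) ∈ A}).map (Lat b).subtype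
      = Submodule.span ℤ (A ∩ (Lat b : Set (E d))) := by
    rw [Submodule.map_span]
    congr 1
    ext x
    constructor
    · rintro ⟨y, hy, rfl⟩
      exact ⟨hy, y.2⟩
    · rintro ⟨hx, hx2⟩
      exact ⟨⟨x, hx2⟩, hx, rfl⟩
  have e := Submodule.equivMapOfInjective (Lat b).subtype (Lat b).injective_subtype
    (Submodule.span ℤ {x : Lat b | (x : E d) ∈ A})
  rw [e.finrank_eq, himg]
  have hle : Submodule.span ℤ (A ∩ (Lat b : Set (E d))) ≤ Lat b := by
    rw [Submodule.span_le]
    exact Set.inter_subset_right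
  have hdisc : DiscreteTopology (Submodule.span ℤ (A ∩ (Lat b : Set (E d)))) := by
    have h1 : DiscreteTopology (Lat b) := inferInstance
    exact DiscreteTopology.of_subset h1 hle
  have h2 := Real.finrank_eq_int_finrank_of_discrete (s := A ∩ (Lat b : Set (E d))) hdisc
  rw [Set.finrank, Set.finrank] at h2
  rw [← h2]
  exact h

theorem exists_cut {d : ℕ} (f : Fin d → ℝ) (hf : Monotone f) :
    ∃ k : ℕ, k ≤ d ∧ ∀ i : Fin d, (i : ℕ) < k ↔ f i ≤ 1 := by
  classical
  have hex : ∃ n : ℕ, n = d ∨ ∃ h : n < d, 1 < f ⟨n, h⟩ := ⟨d, Or.inl rfl⟩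
  have hmin := fun m (hm : m < Nat.find hex) => Nat.find_min hex hm
  have hspec := Nat.find_spec hex
  refine ⟨Nat.find hex, Nat.find_le (Or.inl rfl), ?_⟩
  intro i
  constructor
  · intro hi
    have := hmin i hi
    push Not at this
    exact this.2 i.isLt
  · intro hi
    by_contra hlt
    push Not at hlt
    rcases hspec with h | ⟨h, h1⟩
    · rw [h] at hlt
      exact absurd i.isLt (not_lt.2 hlt)
    · have : f ⟨Nat.find hex, h⟩ ≤ f i := hf (by simpa [Fin.le_def] using hlt)
      linarith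

theorem theta_bound {d : ℕ} (b : Basis (Fin d) ℝ (E d)) (K : Set (E d)) (hc : Convex ℝ K)
    (hcomp : IsCompact K) (hint : (interior K).Nonempty) (hsymm : ∀ x ∈ K, -x ∈ K)
    (k : ℕ) (hk : k ≤ d) (θ : ℝ) (hθ0 : 0 < θ) (hθ1 : θ < 1)
    (hθk : ∀ i : Fin d, k ≤ (i : ℕ) → 1 ≤ θ * lam b K i) (δ : ℝ) (hδ : 0 < δ) :
    ((K ∩ (Lat b : Set (E d))).ncard : ℝ) * ∏ j : Fin k, min δ (θ * lam b K (Fin.castLE hk j) / 2)
      ≤ (1 + δ) ^ k := by
  classical
  have hpos := lam_pos b K hc hcomp hint hsymm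
  have hmonoL := lam_mono b K hc hint hsymm
  have h0 : (0 : E d) ∈ K := interior_subset (zero_mem_interior K hc hint hsymm)
  let S : Fin d → Submodule ℤ (Lat b) := fun i =>
    Submodule.span ℤ {x : Lat b | (x : E d) ∈ (θ * lam b K i) • K}
  have hSmono : Monotone S := by
    intro i j hij
    apply Submodule.span_mono
    intro x hx
    exact smul_subset_smul_of_le' hc h0 (mul_pos hθ0 (hpos i))
      (mul_le_mul_of_nonneg_left (hmonoL hij) hθ0.le) hx
  have hSrank : ∀ i, finrank ℤ (S i) ≤ (i : ℕ) := by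
    intro i
    apply finrank_span_le
    apply finrank_le_of_lt_lam b K i _ (mul_pos hθ0 (hpos i))
    have := hpos i
    nlinarith
  have hrank : finrank ℤ (Lat b) = d := by
    rw [ZLattice.rank ℝ (Lat b), finrank_euclideanSpace, Fintype.card_fin]
  obtain ⟨β, hβ⟩ := adapted_basis d (Lat b) hrank S hSmono hSrank
  let T : (Fin k → ℝ) →ₗ[ℝ] E d :=
    Fintype.linearCombination ℝ (fun j : Fin k => ((β (Fin.castLE hk j) : Lat b) : E d))
  have hT : ∀ w, T w = ∑ j, w j • ((β (Fin.castLE hk j) : Lat b) : E d) := fun w =>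
    Fintype.linearCombination_apply ℝ _ w
  have hli : LinearIndependent ℝ (fun j : Fin k => ((β (Fin.castLE hk j) : Lat b) : E d)) := by
    have h1 := (β.ofZLatticeBasis ℝ (Lat b)).linearIndependent
    have h2 := h1.comp (Fin.castLE hk) (Fin.castLE_injective hk)
    have h3 : (fun j : Fin k => ((β (Fin.castLE hk j) : Lat b) : E d))
        = (β.ofZLatticeBasis ℝ (Lat b)) ∘ Fin.castLE hk := by
      funext j
      simp
    rw [h3]
    exact h2
  have hTinj : Function.Injective T := by
    exact linearIndependent_iff_injective_fintypeLinearCombination.1 hli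
  have hTcont : Continuous T := T.continuous_of_finiteDimensional
  -- integer combinations
  have hTz : ∀ z : Fin k → ℤ, T (cz z) = ((∑ j, z j • β (Fin.castLE hk j) : Lat b) : E d) := by
    intro z
    rw [hT]
    simp [cz, Int.cast_smul_eq_zsmul]
  have hrepr : ∀ (z : Fin k → ℤ) (j : Fin k),
      β.repr (∑ j, z j • β (Fin.castLE hk j)) (Fin.castLE hk j) = z j := by
    intro z j
    rw [map_sum, Finsupp.finsetSum_apply]
    simp only [map_zsmul, Basis.repr_self, Finsupp.smul_apply]
    rw [Finset.sum_eq_single j]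
    · simp
    · intro i _ hij
      rw [Finsupp.single_apply, if_neg]
      · simp
      · intro h
        exact hij (Fin.castLE_injective hk h)
    · intro h
      exact absurd (Finset.mem_univ _) h
  set K0 : Set (Fin k → ℝ) := T ⁻¹' K with hK0
  have hK0c : Convex ℝ K0 := hc.linear_preimage T
  have hK0comp : IsCompact K0 := by
    have hemb : Topology.IsClosedEmbedding T :=
      LinearMap.isClosedEmbedding_of_injective (LinearMap.ker_eq_bot.2 hTinj)
    exact hemb.isCompact_preimage hcomp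
  have hK0symm : ∀ x ∈ K0, -x ∈ K0 := by
    intro x hx
    show T (-x) ∈ K
    rw [map_neg]
    exact hsymm _ hx
  have hK0int : (interior K0).Nonempty := by
    refine ⟨0, ?_⟩
    rw [mem_interior]
    refine ⟨T ⁻¹' (interior K), Set.preimage_mono interior_subset,
      isOpen_interior.preimage hTcont, ?_⟩
    show T 0 ∈ interior K
    rw [map_zero]
    exact zero_mem_interior K hc hint hsymm
  have hH : ∀ i : Fin k, ∀ z : Fin k → ℤ, cz z ∈ (θ * lam b K (Fin.castLE hk i)) • K0 →
      ∀ j, i ≤ j → z j = 0 := by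
    rintro i z ⟨w, hw, hwz⟩ j hij
    have h1 : T (cz z) ∈ (θ * lam b K (Fin.castLE hk i)) • K := by
      rw [← hwz]
      refine ⟨T w, hw, ?_⟩
      simp
    rw [hTz] at h1
    have h2 : (∑ j, z j • β (Fin.castLE hk j) : Lat b) ∈ S (Fin.castLE hk i) :=
      Submodule.subset_span h1
    have h3 := hβ _ _ h2 (Fin.castLE hk j) (show (i : ℕ) ≤ (j : ℕ) from hij)
    rwa [hrepr] at h3
  -- the set of integer points of K0
  have hKLfin : (K ∩ (Lat b : Set (E d))).Finite := ZSpan.setFinite_inter b hcomp.isBounded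
  have hZfin : {z : Fin k → ℤ | cz z ∈ K0}.Finite := by
    apply Set.Finite.of_finite_image (f := fun z => T (cz z))
    · apply hKLfin.subset
      rintro _ ⟨z, hz, rfl⟩
      refine ⟨hz, ?_⟩
      show T (cz z) ∈ (Lat b : Set (E d))
      rw [hTz]
      exact (∑ j, z j • β (Fin.castLE hk j) : Lat b).2
    · intro z _ z' _ h
      have h1 := hTinj h
      funext j
      have := congrFun h1 j
      simpa [cz] using this
  have hcard : (K ∩ (Lat b : Set (E d))).ncard ≤ {z : Fin k → ℤ | cz z ∈ K0}.ncard := by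
    -- every lattice point of K is T (cz z)
    have hsub : K ∩ (Lat b : Set (E d)) ⊆ (fun z => T (cz z)) '' {z : Fin k → ℤ | cz z ∈ K0} := by
      rintro u ⟨huK, huL⟩
      have hvan : ∀ j : Fin d, k ≤ (j : ℕ) → β.repr ⟨u, huL⟩ j = 0 := by
        intro j hj
        have hmem : (⟨u, huL⟩ : Lat b) ∈ S j := by
          apply Submodule.subset_span
          show u ∈ (θ * lam b K j) • K
          have h1 := hθk j hj
          have h2 := smul_subset_smul_of_le' hc h0 one_pos h1
          rw [one_smul] at h2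
          exact h2 huK
        exact hβ j _ hmem j le_rfl
      refine ⟨fun j => β.repr ⟨u, huL⟩ (Fin.castLE hk j), ?_, ?_⟩
      all_goals
        have hsum : T (cz (fun j => β.repr ⟨u, huL⟩ (Fin.castLE hk j))) = u := by
          rw [hTz]
          have h1 := β.sum_repr ⟨u, huL⟩
          have h2 : (∑ j : Fin k, β.repr ⟨u, huL⟩ (Fin.castLE hk j) • β (Fin.castLE hk j))
              = ∑ j : Fin d, β.repr ⟨u, huL⟩ j • β j := by
            refine (Finset.sum_map Finset.univ (Fin.castLEEmb hk)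
              (fun j : Fin d => β.repr ⟨u, huL⟩ j • β j)).symm.trans ?_
            apply Finset.sum_subset (Finset.subset_univ _)
            intro j _ hj
            have hjk : k ≤ (j : ℕ) := by
              by_contra hlt
              push Not at hlt
              apply hj
              rw [Finset.mem_map]
              exact ⟨⟨j, hlt⟩, Finset.mem_univ _, by ext; simp⟩
            rw [hvan j hjk, zero_smul]
          rw [h2, h1]
      · show T (cz (fun j => β.repr ⟨u, huL⟩ (Fin.castLE hk j))) ∈ K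
        rw [hsum]
        exact huK
      · exact hsum
    calc (K ∩ (Lat b : Set (E d))).ncard
        ≤ ((fun z => T (cz z)) '' {z : Fin k → ℤ | cz z ∈ K0}).ncard :=
          Set.ncard_le_ncard hsub (hZfin.image _)
      _ ≤ {z : Fin k → ℤ | cz z ∈ K0}.ncard := Set.ncard_image_le hZfin
  have hmain := coord_main K0 hK0c hK0comp hK0symm hK0int
    (fun i => θ * lam b K (Fin.castLE hk i)) (fun i => mul_pos hθ0 (hpos _))
    (fun i j hij => mul_le_mul_of_nonneg_left (hmonoL (show (i : ℕ) ≤ (j : ℕ) from hij)) hθ0.le)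
    hH δ hδ hZfin.toFinset (by intro u hu; simpa using hu)
  rw [← Set.ncard_eq_toFinset_card _ hZfin] at hmain
  refine le_trans ?_ hmain
  apply mul_le_mul_of_nonneg_right (by exact_mod_cast hcard)
  apply Finset.prod_nonneg
  intro j _
  have := mul_pos hθ0 (hpos (Fin.castLE hk j))
  exact le_min hδ.le (by positivity)

end Pool.Agent.Helper85.BHW
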