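import Pool.Agent.Helper85.BHW.Defs

set_option autoImplicit false
open scoped Pointwise
open MeasureTheory Module

namespace Pool.Agent.Helper85.BHW

theorem measurable_per {n : ℕ} (i : ℕ) {A : Set (Fin n → ℝ)} (hA : MeasurableSet A) :
    MeasurableSet (per i A) := by
  have h1 : per i A = (⋂ j : Fin n, {x : Fin n → ℝ | (j : ℕ) < i → x j ∈ Set.Ico (0:ℝ) 1}) ∩
      ⋃ z : Fin n → ℤ, {x : Fin n → ℝ | (∀ j : Fin n, i ≤ (j : ℕ) → z j = 0) ∧ x + cz z ∈ A} := by
    ext x
    simp only [per, Set.mem_ofPred_eq, Set.mem_inter_iff, Set.mem_iInter, Set.mem_iUnion]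
  rw [h1]
  apply MeasurableSet.inter
  · apply MeasurableSet.iInter
    intro j
    by_cases hj : (j : ℕ) < i
    · have h2 : {x : Fin n → ℝ | (j : ℕ) < i → x j ∈ Set.Ico (0:ℝ) 1} =
          (fun x : Fin n → ℝ => x j) ⁻¹' Set.Ico (0:ℝ) 1 := by
        ext x
        simp [hj]
      rw [h2]
      exact (measurable_pi_apply j) measurableSet_Ico
    · have h2 : {x : Fin n → ℝ | (j : ℕ) < i → x j ∈ Set.Ico (0:ℝ) 1} = Set.univ := by
        ext x
        simp [hj]
      rw [h2]
      exact MeasurableSet.univ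
  · apply MeasurableSet.iUnion
    intro z
    by_cases hz : ∀ j : Fin n, i ≤ (j : ℕ) → z j = 0
    · have h2 : {x : Fin n → ℝ | (∀ j : Fin n, i ≤ (j : ℕ) → z j = 0) ∧ x + cz z ∈ A} =
          (fun x : Fin n → ℝ => x + cz z) ⁻¹' A := by
        ext x
        constructor
        · exact fun h => h.2
        · exact fun h => ⟨hz, h⟩
      rw [h2]
      exact (measurable_add_const (cz z)) hA
    · have h2 : {x : Fin n → ℝ | (∀ j : Fin n, i ≤ (j : ℕ) → z j = 0) ∧ x + cz z ∈ A} = ∅ := by
        ext x
        constructor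
        · exact fun h => absurd h.1 hz
        · exact fun h => h.elim
      rw [h2]
      exact MeasurableSet.empty

/-- MODULE C2 -/
theorem unfold_step {n : ℕ} (i : Fin n) (A : Set (Fin n → ℝ)) (hA : MeasurableSet A)
    (h : ∀ x ∈ A, ∀ y ∈ A, ∀ z : Fin n → ℤ, x - y = cz z → z i = 0) :
    volume (per (i : ℕ) A) ≤ volume (per ((i : ℕ) + 1) A) := by
  classical
  let B : ℤ → Set (Fin n → ℝ) := fun m => per (i : ℕ) A ∩ {x | ⌊x i⌋ = m}
  let t : ℤ → (Fin n → ℝ) := fun m => cz (Pi.single i m)
  let C : ℤ → Set (Fin n → ℝ) := fun m => (fun y => y + t m) ⁻¹' (B m)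
  have hti : ∀ m, t m i = (m : ℝ) := by
    intro m
    simp [t, cz]
  have htj : ∀ m (j : Fin n), j ≠ i → t m j = 0 := by
    intro m j hj
    simp [t, cz, Pi.single_eq_of_ne hj]
  have hBm : ∀ m, MeasurableSet (B m) := by
    intro m
    apply (measurable_per _ hA).inter
    have : Measurable (fun x : Fin n → ℝ => ⌊x i⌋) := (measurable_pi_apply i).floor
    exact this (measurableSet_singleton m)
  have hCm : ∀ m, MeasurableSet (C m) := fun m => (measurable_add_const (t m)) (hBm m)
  have hcov : per (i : ℕ) A ⊆ ⋃ m, B m := by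
    intro x hx
    exact Set.mem_iUnion.2 ⟨⌊x i⌋, hx, rfl⟩
  have hvol : ∀ m, volume (C m) = volume (B m) := by
    intro m
    exact measure_preimage_add_right volume (t m) (B m)
  have hsub : ∀ m, C m ⊆ per ((i : ℕ) + 1) A := by
    intro m y hy
    obtain ⟨⟨hy1, z, hz, hzA⟩, hy2⟩ := hy
    simp only [Set.mem_ofPred_eq] at hy2
    refine ⟨?_, z + Pi.single i m, ?_, ?_⟩
    · intro j hj
      by_cases hji : j = i
      · subst hji
        have h1 : (y + t m) j = y j + m := by rw [Pi.add_apply, hti]
        rw [h1, Int.floor_add_intCast] at hy2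
        have h2 : ⌊y j⌋ = 0 := by omega
        rw [Int.floor_eq_zero_iff] at h2
        exact h2
      · have h1 := hy1 j (by
          have : (j : ℕ) ≠ (i : ℕ) := fun hh => hji (Fin.ext hh)
          omega)
        have h2 : (y + t m) j = y j := by rw [Pi.add_apply, htj m j hji, add_zero]
        have h3 : (y + t m) j ∈ Set.Ico (0:ℝ) 1 := h1
        rw [h2] at h3
        exact h3
    · intro j hj
      have hji : j ≠ i := by
        intro hh
        rw [hh] at hj
        omega
      rw [Pi.add_apply, hz j (by omega), Pi.single_eq_of_ne hji, add_zero]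
    · have h1 : y + cz (z + Pi.single i m) = y + t m + cz z := by
        funext j
        simp only [Pi.add_apply, cz, t]
        push_cast
        ring
      rw [h1]
      exact hzA
  have hdisj : Pairwise (Function.onFun Disjoint C) := by
    intro m m' hmm
    rw [Function.onFun, Set.disjoint_left]
    rintro y ⟨⟨_, z, hz, hzA⟩, _⟩ ⟨⟨_, z', hz', hzA'⟩, _⟩
    apply hmm
    have h1 := h _ hzA _ hzA' (Pi.single i m - Pi.single i m' + (z - z')) (by
      funext j
      simp only [Pi.add_apply, Pi.sub_apply, cz, t]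
      push_cast
      ring)
    rw [Pi.add_apply, Pi.sub_apply, Pi.sub_apply, Pi.single_eq_same, Pi.single_eq_same,
      hz i (le_refl _), hz' i (le_refl _)] at h1
    omega
  calc volume (per (i : ℕ) A) ≤ volume (⋃ m, B m) := measure_mono hcov
    _ ≤ ∑' m, volume (B m) := measure_iUnion_le _
    _ = ∑' m, volume (C m) := by
        apply tsum_congr
        intro m
        rw [hvol m]
    _ = volume (⋃ m, C m) := (measure_iUnion hdisj hCm).symm
    _ ≤ volume (per ((i : ℕ) + 1) A) := measure_mono (Set.iUnion_subset hsub)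

end Pool.Agent.Helper85.BHW
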