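import Pool.Agent.Helper90.BHW.Adapted
import Pool.Agent.Helper90.BHW.Dilate
import Pool.Agent.Helper98.BHW.Packing
import Pool.Agent.Helper85.BHW.Unfold

/-!
Collects the four modules (adapted basis, packing, unfolding, dilation).
-/

set_option autoImplicit false
open scoped Pointwise
open MeasureTheory Module

namespace Pool.Agent.Helper85.BHW

theorem adapted_basis (d : ℕ) (M : Type) [AddCommGroup M] [Module.Free ℤ M]
    [Module.Finite ℤ M] (hd : finrank ℤ M = d) (S : Fin d → Submodule ℤ M) (hmono : Monotone S)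
    (hS : ∀ i, finrank ℤ (S i) ≤ (i : ℕ)) :
    ∃ β : Basis (Fin d) ℤ M, ∀ i, ∀ z ∈ S i, ∀ j, i ≤ j → β.repr z j = 0 :=
  Pool.Agent.Helper90.BHW.adapted_basis d M hd S hmono hS

theorem dilate {n : ℕ} (i : ℕ) (hi : i ≤ n) (K : Set (Fin n → ℝ)) (hc : Convex ℝ K)
    (hK : IsClosed K) (s t : ℝ) (ht : 0 < t) (hts : t ≤ s) :
    ENNReal.ofReal ((s / t) ^ (n - i)) * volume (per i (t • K)) ≤ volume (per i (s • K)) :=
  Pool.Agent.Helper90.BHW.dilate i hi K hc hK s t ht hts

end Pool.Agent.Helper85.BHW
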