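import Pool.Agent.Helper85.BHW.Main

/-!
# Lattice points and successive minima (MP_98df5b_co)

Upper bounds for the number of lattice points of an origin-symmetric convex body in terms of the
successive minima, in every dimension.
-/

set_option autoImplicit false
open scoped Pointwise

namespace Pool.Agent.Results.MP_98df5b_co.LatticePointBound

/-- Let `K` be an origin-symmetric convex body in `ℝ^d`, `L` the lattice generated by a basis `b`,
and `lam i` (`i = 0, …, d-1`) the successive minima of `K` with respect to `L`. Then, with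
`G = #(K ∩ L)`:

1. for every real `R > 0`, `G ≤ ∏_{i : lam i ≤ 1} max (1 + R) ((1 + 1/R) * (2 / lam i))`;
2. `G ≤ (4/3)^d * ∏_i ⌊2 / lam i + 1⌋`;
3. if `Q ≥ 1` is an integer with `⌊2 / lam i + 1⌋ ≥ Q` for all `i`, then
   `G ≤ (1 + 1/Q)^d * ∏_i ⌊2 / lam i + 1⌋`. -/
theorem result (d : ℕ) (b : Module.Basis (Fin d) ℝ (EuclideanSpace ℝ (Fin d)))
    (K : Set (EuclideanSpace ℝ (Fin d)))
    (hconv : Convex ℝ K) (hcomp : IsCompact K) (hint : (interior K).Nonempty)
    (hsymm : ∀ x ∈ K, -x ∈ K) (lam : Fin d → ℝ)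
    (hlam : ∀ i : Fin d, lam i = sInf {t : ℝ | 0 < t ∧
              i.val + 1 ≤ Module.finrank ℝ
                (Submodule.span ℝ ((t • K) ∩
                  (Submodule.span ℤ (Set.range b) : Set (EuclideanSpace ℝ (Fin d)))))}) :
    (∀ R : ℝ, 0 < R →
      ((K ∩ (Submodule.span ℤ (Set.range b) : Set (EuclideanSpace ℝ (Fin d)))).ncard : ℝ) ≤
        ∏ i ∈ Finset.univ.filter (fun i : Fin d => lam i ≤ 1),
          max (1 + R) ((1 + 1 / R) * (2 / lam i))) ∧
    ((K ∩ (Submodule.span ℤ (Set.range b) : Set (EuclideanSpace ℝ (Fin d)))).ncard : ℝ) ≤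
      (4 / 3) ^ d * ∏ i : Fin d, (⌊2 / lam i + 1⌋ : ℝ) ∧
    (∀ Q : ℕ, 0 < Q → (∀ i : Fin d, (Q : ℤ) ≤ ⌊2 / lam i + 1⌋) →
      ((K ∩ (Submodule.span ℤ (Set.range b) : Set (EuclideanSpace ℝ (Fin d)))).ncard : ℝ) ≤
        (1 + 1 / (Q : ℝ)) ^ d * ∏ i : Fin d, (⌊2 / lam i + 1⌋ : ℝ)) := by
  have hl : lam = Pool.Agent.Helper85.BHW.lam b K := by
    funext i
    rw [hlam i]
    rfl
  subst hl
  refine ⟨?_, ?_, ?_⟩
  · intro R hR
    exact Pool.Agent.Helper85.BHW.main_bound b K hconv hcomp hint hsymm R hR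
  · have h := Pool.Agent.Helper85.BHW.bound_of_R b K hconv hcomp hint hsymm 3 (by norm_num)
      (fun i hi => Pool.Agent.Helper85.BHW.floor_ge_three _
        (Pool.Agent.Helper85.BHW.lam_pos b K hconv hcomp hint hsymm i) hi)
    have e : (1 + 1 / 3 : ℝ) = 4 / 3 := by norm_num
    rwa [e] at h
  · intro Q hQ hq
    apply Pool.Agent.Helper85.BHW.bound_of_R b K hconv hcomp hint hsymm (Q : ℝ)
      (by exact_mod_cast hQ)
    intro i _
    exact_mod_cast hq i

end Pool.Agent.Results.MP_98df5b_co.LatticePointBound
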